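import Mathlib

/-!
# The Banach category theorem, and Baire times the line

* `isMeagre_of_local`: a set that is meagre in a nonempty open subset of every nonempty open set is
  meagre.
* `exists_everywhere_nonmeagre`: a non-meagre set is everywhere non-meagre in some nonempty open set.
* `baireSpace_prod_real`: if `E` is a Baire space then so is `E × ℝ`.
-/

set_option autoImplicit false

open Set Topology Filter

namespace Pool.Agent.Work.MP_6cbae3_an_helper29

section banach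

variable {X : Type*} [TopologicalSpace X]

/-- Banach category theorem. -/
theorem isMeagre_of_local (N : Set X)
    (h : ∀ V : Set X, IsOpen V → V.Nonempty →
      ∃ V' ⊆ V, IsOpen V' ∧ V'.Nonempty ∧ IsMeagre (N ∩ V')) : IsMeagre N := by
  classical
  -- a maximal disjoint family of open sets in which `N` is meagre
  set P : Set (Set (Set X)) := {𝒱 | (∀ V ∈ 𝒱, IsOpen V ∧ V.Nonempty ∧ IsMeagre (N ∩ V)) ∧
    𝒱.PairwiseDisjoint id} with hP
  obtain ⟨𝒱, hmax⟩ : ∃ 𝒱, Maximal (· ∈ P) 𝒱 := by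
    apply zorn_subset
    intro c hcP hc
    refine ⟨⋃₀ c, ⟨?_, ?_⟩, fun s hs => subset_sUnion_of_mem hs⟩
    · rintro V ⟨𝒲, h𝒲, hV⟩
      exact (hcP h𝒲).1 V hV
    · rintro V ⟨𝒲, h𝒲, hV⟩ V' ⟨𝒲', h𝒲', hV'⟩ hne
      rcases hc.total h𝒲 h𝒲' with hsub | hsub
      · exact (hcP h𝒲').2 (hsub hV) hV' hne
      · exact (hcP h𝒲).2 hV (hsub hV') hne
  have h𝒱 := hmax.prop.1
  have hdisj := hmax.prop.2
  -- the union is dense
  have hdense : Dense (⋃₀ 𝒱) := by
    rw [dense_iff_inter_open]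
    intro V hVo hVne
    by_contra hempty
    rw [not_nonempty_iff_eq_empty] at hempty
    obtain ⟨V', hV'V, hV'o, hV'ne, hV'm⟩ := h V hVo hVne
    have hnew : insert V' 𝒱 ∈ P := by
      refine ⟨?_, ?_⟩
      · rintro W (rfl | hW)
        · exact ⟨hV'o, hV'ne, hV'm⟩
        · exact h𝒱 W hW
      · apply hdisj.insert
        intro W hW _
        rw [id, id, disjoint_iff_inter_eq_empty]
        apply eq_empty_of_subset_empty
        rw [← hempty]
        exact fun x hx => ⟨hV'V hx.1, W, hW, hx.2⟩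
    have hmem : V' ∈ 𝒱 := hmax.le_of_ge hnew (subset_insert _ _) (mem_insert _ _)
    obtain ⟨x, hx⟩ := hV'ne
    have : x ∈ V ∩ ⋃₀ 𝒱 := ⟨hV'V hx, V', hmem, hx⟩
    rw [hempty] at this
    exact this
  -- countable families of dense open sets
  have hres : ∀ V ∈ 𝒱, ∃ O : ℕ → Set X, (∀ n, IsOpen (O n)) ∧ (∀ n, Dense (O n)) ∧
      ⋂ n, O n ⊆ (N ∩ V)ᶜ := by
    intro V hV
    obtain ⟨S, hSo, hSd, hSc, hS⟩ := mem_residual_iff.mp (h𝒱 V hV).2.2
    rcases S.eq_empty_or_nonempty with rfl | hSne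
    · refine ⟨fun _ => univ, fun _ => isOpen_univ, fun _ => dense_univ, ?_⟩
      rw [sInter_empty] at hS
      exact fun x _ => hS (mem_univ x)
    · obtain ⟨g, hg⟩ := hSc.exists_eq_range hSne
      refine ⟨g, fun n => hSo _ (hg ▸ mem_range_self n), fun n => hSd _ (hg ▸ mem_range_self n), ?_⟩
      rw [hg, sInter_range] at hS
      exact hS
  choose! O hOo hOd hO using hres
  set W : ℕ → Set X := fun n => ⋃ V ∈ 𝒱, V ∩ O V n with hW
  have hWo : ∀ n, IsOpen (W n) := fun n =>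
    isOpen_biUnion fun V hV => (h𝒱 V hV).1.inter (hOo V hV n)
  have hWd : ∀ n, Dense (W n) := by
    intro n
    rw [dense_iff_inter_open]
    intro U hUo hUne
    obtain ⟨x, hxU, V, hV, hxV⟩ := hdense.inter_open_nonempty U hUo hUne
    obtain ⟨y, ⟨hyU, hyV⟩, hyO⟩ := (hOd V hV n).inter_open_nonempty (U ∩ V)
      (hUo.inter (h𝒱 V hV).1) ⟨x, hxU, hxV⟩
    exact ⟨y, hyU, mem_iUnion₂.mpr ⟨V, hV, hyV, hyO⟩⟩
  rw [IsMeagre, mem_residual_iff]
  refine ⟨range W, ?_, ?_, countable_range W, ?_⟩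
  · rintro _ ⟨n, rfl⟩; exact hWo n
  · rintro _ ⟨n, rfl⟩; exact hWd n
  · intro x hx hxN
    rw [sInter_range, mem_iInter] at hx
    obtain ⟨V, hV, hxV, -⟩ := mem_iUnion₂.mp (hx 0)
    have hmem : x ∈ ⋂ n, O V n := by
      rw [mem_iInter]
      intro n
      obtain ⟨V', hV', hxV', hxO⟩ := mem_iUnion₂.mp (hx n)
      have : V' = V := by
        by_contra hne
        exact (hdisj hV' hV hne).le_bot ⟨hxV', hxV⟩
      rwa [this] at hxO
    exact hO V hV hmem ⟨hxN, hxV⟩

/-- `N` is non-meagre in every nonempty open subset of the nonempty open set `V`. -/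
def NM (N V : Set X) : Prop :=
  IsOpen V ∧ V.Nonempty ∧ ∀ V' ⊆ V, IsOpen V' → V'.Nonempty → ¬ IsMeagre (N ∩ V')

theorem NM.mono {N V V' : Set X} (h : NM N V) (hV : V' ⊆ V) (ho : IsOpen V') (hne : V'.Nonempty) :
    NM N V' :=
  ⟨ho, hne, fun _ hW hWo hWne => h.2.2 _ (hW.trans hV) hWo hWne⟩

theorem NM.inter_nonempty {N V : Set X} (h : NM N V) : (N ∩ V).Nonempty := by
  by_contra hne
  rw [not_nonempty_iff_eq_empty] at hne
  exact h.2.2 V subset_rfl h.1 h.2.1 (hne ▸ IsMeagre.empty)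

theorem exists_NM {N V : Set X} (hV : IsOpen V) (h : ¬ IsMeagre (N ∩ V)) :
    ∃ V' ⊆ V, NM N V' := by
  by_contra hcon
  push Not at hcon
  apply h
  apply isMeagre_of_local
  intro U hUo hUne
  rcases (U ∩ V).eq_empty_or_nonempty with hUV | hUV
  · refine ⟨U, subset_rfl, hUo, hUne, ?_⟩
    rw [inter_assoc, inter_comm V U, hUV, inter_empty]
    exact IsMeagre.empty
  · have h1 := hcon (U ∩ V) inter_subset_right
    unfold NM at h1
    push Not at h1
    obtain ⟨V', hV', hV'o, hV'ne, hm⟩ := h1 (hUo.inter hV) hUV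
    refine ⟨V', hV'.trans inter_subset_left, hV'o, hV'ne, ?_⟩
    refine IsMeagre.mono ?_ hm
    intro x hx
    exact ⟨hx.1.1, hx.2⟩

end banach

section prod

variable {E : Type*} [TopologicalSpace E]

/-- If `E` is Baire, then `E × ℝ` is Baire. -/
theorem baireSpace_prod_real [BaireSpace E] : BaireSpace (E × ℝ) := by
  classical
  refine ⟨fun f hfo hfd => ?_⟩
  rw [dense_iff_inter_open]
  intro O hOo hOne
  obtain ⟨⟨x₀, t₀⟩, hz⟩ := hOne
  have hmem : O ∈ 𝓝 (x₀, t₀) := hOo.mem_nhds hz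
  rw [nhds_prod_eq, Filter.mem_prod_iff] at hmem
  obtain ⟨U, hU, I, hI, hUI⟩ := hmem
  set V : Set E := interior U with hV
  set J : Set ℝ := interior I with hJ
  have hVo : IsOpen V := isOpen_interior
  have hJo : IsOpen J := isOpen_interior
  have hx₀ : x₀ ∈ V := mem_interior_iff_mem_nhds.mpr hU
  have ht₀ : t₀ ∈ J := mem_interior_iff_mem_nhds.mpr hI
  have hVJ : V ×ˢ J ⊆ O := (Set.prod_mono interior_subset interior_subset).trans hUI
  -- for rational intervals meeting `J` the projection of `f n` is open and dense in `V`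
  let B : ℚ × ℚ → Set ℝ := fun q => Ioo (q.1 : ℝ) (q.2 : ℝ) ∩ J
  let A : ℕ × (ℚ × ℚ) → Set E := fun p =>
    if (B p.2).Nonempty then (Prod.fst '' (f p.1 ∩ (V ×ˢ B p.2))) ∪ (closure V)ᶜ else univ
  have hBo : ∀ q, IsOpen (B q) := fun q => isOpen_Ioo.inter hJo
  have hAo : ∀ p, IsOpen (A p) := by
    intro p
    simp only [A]
    split_ifs with hp
    · exact (isOpenMap_fst _ ((hfo p.1).inter (hVo.prod (hBo p.2)))).union
        isClosed_closure.isOpen_compl
    · exact isOpen_univ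
  have hAd : ∀ p, Dense (A p) := by
    intro p
    simp only [A]
    split_ifs with hp
    · rw [dense_iff_inter_open]
      intro W hWo hWne
      rcases (W ∩ V).eq_empty_or_nonempty with hWV | hWV
      · obtain ⟨x, hx⟩ := hWne
        refine ⟨x, hx, Or.inr ?_⟩
        intro hxc
        obtain ⟨y, hyW, hyV⟩ := mem_closure_iff.mp hxc W hWo hx
        have : y ∈ W ∩ V := ⟨hyW, hyV⟩
        rw [hWV] at this
        exact this
      · obtain ⟨x, hx⟩ := hWV
        obtain ⟨t, ht⟩ := hp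
        obtain ⟨⟨y, s⟩, hys, hyf⟩ := (hfd p.1).inter_open_nonempty ((W ∩ V) ×ˢ B p.2)
          ((hWo.inter hVo).prod (hBo _)) ⟨(x, t), hx, ht⟩
        exact ⟨y, hys.1.1, Or.inl ⟨(y, s), ⟨hyf, hys.1.2, hys.2⟩, rfl⟩⟩
    · exact dense_univ
  have hdense := dense_iInter_of_isOpen hAo hAd
  obtain ⟨x, hxV, hxA⟩ := hdense.inter_open_nonempty V hVo ⟨x₀, hx₀⟩
  rw [mem_iInter] at hxA
  -- sections
  let C : ℕ → Set ℝ := fun n => ((fun t : ℝ => (x, t)) ⁻¹' f n) ∪ (closure J)ᶜ
  have hCo : ∀ n, IsOpen (C n) := fun n =>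
    ((hfo n).preimage (by fun_prop)).union isClosed_closure.isOpen_compl
  have hCd : ∀ n, Dense (C n) := by
    intro n
    rw [dense_iff_inter_open]
    intro W hWo hWne
    rcases (W ∩ J).eq_empty_or_nonempty with hWJ | hWJ
    · obtain ⟨t, ht⟩ := hWne
      refine ⟨t, ht, Or.inr ?_⟩
      intro htc
      obtain ⟨s, hsW, hsJ⟩ := mem_closure_iff.mp htc W hWo ht
      have : s ∈ W ∩ J := ⟨hsW, hsJ⟩
      rw [hWJ] at this
      exact this
    · obtain ⟨t, ht⟩ := hWJ
      obtain ⟨δ, hδ, hball⟩ := Metric.isOpen_iff.mp (hWo.inter hJo) t ht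
      obtain ⟨q₁, hq1, hq1'⟩ := exists_rat_btwn (show t - δ < t by linarith)
      obtain ⟨q₂, hq2, hq2'⟩ := exists_rat_btwn (show t < t + δ by linarith)
      have hne : (B (q₁, q₂)).Nonempty := ⟨t, ⟨hq1', hq2⟩, ht.2⟩
      have h1 := hxA (n, (q₁, q₂))
      simp only [A] at h1
      rw [if_pos hne] at h1
      rcases h1 with ⟨⟨y, s⟩, ⟨hyf, _, hs⟩, hyx⟩ | h1
      · simp only at hyx
        subst hyx
        have hsW : s ∈ W ∩ J := by
          apply hball
          rw [Metric.mem_ball, Real.dist_eq, abs_lt]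
          have := hs.1.1
          have := hs.1.2
          constructor <;> simp only at * <;> linarith
        exact ⟨s, hsW.1, Or.inl hyf⟩
      · exact absurd (subset_closure hxV) h1
  have hdense2 := dense_iInter_of_isOpen hCo hCd
  obtain ⟨t, htJ, htC⟩ := hdense2.inter_open_nonempty J hJo ⟨t₀, ht₀⟩
  rw [mem_iInter] at htC
  refine ⟨(x, t), hVJ ⟨hxV, htJ⟩, ?_⟩
  rw [mem_iInter]
  intro n
  rcases htC n with h1 | h1
  · exact h1
  · exact absurd (subset_closure htJ) h1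

end prod

end Pool.Agent.Work.MP_6cbae3_an_helper29
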