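import Mathlib
import Pool.Agent.Results.MP_6cbae3_an.NonBaire
import Pool.Agent.Work.MP_6cbae3_an_helper29.BanachCategory

/-!
# Subgradients of continuous convex functions, and products of Fréchet differentiability spaces
-/

set_option autoImplicit false
set_option linter.unusedSectionVars false

open Set Topology Filter
open Pool.Agent.Results.MP_6cbae3_an.NonBaire

namespace Pool.Agent.Work.MP_6cbae3_an_helper29

section subgrad

variable {F : Type*} [AddCommGroup F] [Module ℝ F] [TopologicalSpace F]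

/-- `a` is a subgradient of `f` at `z`, relative to `D`. -/
def IsSubgrad (f : F → ℝ) (D : Set F) (z : F) (a : F →L[ℝ] ℝ) : Prop :=
  ∀ y ∈ D, f z + a (y - z) ≤ f y

variable [IsTopologicalAddGroup F] [ContinuousSMul ℝ F] {f : F → ℝ} {D : Set F}

theorem exists_subgrad (hD : IsOpen D) (hf : ConvexOn ℝ D f) (hfc : ContinuousOn f D) {z : F}
    (hz : z ∈ D) : ∃ a : F →L[ℝ] ℝ, IsSubgrad f D z a := by
  set C : Set (F × ℝ) := {w | w.1 ∈ D ∧ f w.1 < w.2} with hC
  have hCc : Convex ℝ C := hf.convex_strict_epigraph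
  have hCo : IsOpen C := by
    have h1 : ContinuousOn (fun w : F × ℝ => w.2 - f w.1) (Prod.fst ⁻¹' D) :=
      continuous_snd.continuousOn.sub (hfc.comp continuous_fst.continuousOn (fun w hw => hw))
    have h2 := h1.isOpen_inter_preimage (hD.preimage continuous_fst) (isOpen_Ioi (a := (0 : ℝ)))
    convert h2 using 1
    ext w
    simp only [hC, mem_ofPred_eq, mem_inter_iff, mem_preimage, mem_Ioi, sub_pos]
  have hzC : (z, f z) ∉ C := fun h => lt_irrefl _ h.2
  obtain ⟨φ, hφ⟩ := geometric_hahn_banach_open_point hCc hCo hzC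
  have hsplit : ∀ (y : F) (s : ℝ), φ (y, s) = φ (y, 0) + s * φ (0, 1) := by
    intro y s
    have : (y, s) = (y, (0 : ℝ)) + s • ((0 : F), (1 : ℝ)) := by
      ext <;> simp
    rw [this, map_add, map_smul, smul_eq_mul]
  set l : ℝ := -φ (0, 1) with hl
  have hlpos : 0 < l := by
    have h1 := hφ (z, f z + 1) ⟨hz, by linarith⟩
    rw [hsplit z (f z + 1), hsplit z (f z)] at h1
    rw [hl]
    nlinarith
  refine ⟨l⁻¹ • (φ.comp (ContinuousLinearMap.inl ℝ F ℝ)), ?_⟩
  intro y hy
  have key : ∀ s, f y < s → f z + l⁻¹ * φ (y - z, 0) < s := by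
    intro s hs
    have h1 := hφ (y, s) ⟨hy, hs⟩
    rw [hsplit y s, hsplit z (f z)] at h1
    have h2 : φ (y - z, (0 : ℝ)) = φ (y, 0) - φ (z, 0) := by
      rw [← map_sub]; simp
    have h3 : φ (y - z, (0 : ℝ)) < (s - f z) * l := by
      rw [h2, hl]; linarith
    have h4 : l⁻¹ * φ (y - z, (0 : ℝ)) < s - f z := by
      rw [inv_mul_eq_div, div_lt_iff₀ hlpos]; exact h3
    linarith
  have h5 : (l⁻¹ • (φ.comp (ContinuousLinearMap.inl ℝ F ℝ))) (y - z) = l⁻¹ * φ (y - z, 0) := by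
    simp
  rw [h5]
  by_contra hcon
  push Not at hcon
  obtain ⟨s, hs1, hs2⟩ := exists_between hcon
  exact absurd (key s hs1) (by linarith)

/-- Near every point of `D` all subgradients are dominated by one continuous seminorm. -/
theorem exists_seminorm_bound [LocallyConvexSpace ℝ F] (hD : IsOpen D)
    (hfc : ContinuousOn f D) {z₀ : F} (hz₀ : z₀ ∈ D) :
    ∃ p : Seminorm ℝ F, Continuous p ∧ ∃ V, IsOpen V ∧ z₀ ∈ V ∧ V ⊆ D ∧
      ∀ z ∈ V, ∀ a : F →L[ℝ] ℝ, IsSubgrad f D z a → ∀ w, |a w| ≤ p w := by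
  have hU : {y | y ∈ D ∧ |f y - f z₀| < 1} ∈ 𝓝 z₀ := by
    have h1 : ∀ᶠ y in 𝓝 z₀, |f y - f z₀| < 1 := by
      have h2 : ContinuousAt f z₀ := hfc.continuousAt (hD.mem_nhds hz₀)
      have h3 := (Metric.tendsto_nhds.mp h2) 1 one_pos
      simpa [Real.dist_eq] using h3
    exact Filter.inter_mem (hD.mem_nhds hz₀) h1
  have hU0 : {w : F | z₀ + w ∈ {y | y ∈ D ∧ |f y - f z₀| < 1}} ∈ 𝓝 (0 : F) := by
    have : Tendsto (fun w : F => z₀ + w) (𝓝 0) (𝓝 z₀) := by
      have h : Continuous fun w : F => z₀ + w := by fun_prop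
      simpa using h.tendsto 0
    exact this hU
  obtain ⟨W, ⟨hW0, hWo, hWac⟩, hWsub⟩ := (nhds_hasBasis_absConvex_open ℝ F).mem_iff.mp hU0
  have hWn : W ∈ 𝓝 (0 : F) := hWo.mem_nhds hW0
  have hWc : Convex ℝ W := hWac.2
  have hWb : Balanced ℝ W := hWac.1
  have hWa : Absorbent ℝ W := absorbent_nhds_zero hWn
  set q : Seminorm ℝ F := gaugeSeminorm hWb hWc hWa with hq
  have hqc : Continuous q := continuous_gauge hWc hWn
  have hqW : ∀ w, q w < 1 → w ∈ W := by
    intro w hw
    have h1 := gaugeSeminorm_ball_one (hs₀ := hWb) (hs₁ := hWc) (hs₂ := hWa) hWo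
    rw [← h1, Seminorm.mem_ball, sub_zero]
    exact hw
  refine ⟨(4 : NNReal) • q, ?_, {z | q (z - z₀) < 1 / 2}, ?_, ?_, ?_, ?_⟩
  · have : (⇑((4 : NNReal) • q) : F → ℝ) = fun w => (4 : ℝ) * q w := by
      ext w
      simp [NNReal.smul_def]
    rw [this]
    fun_prop
  · exact isOpen_lt (by fun_prop) continuous_const
  · simp
  · intro z hz
    have h1 : z - z₀ ∈ W := hqW _ (lt_trans hz (by norm_num))
    have h2 := (hWsub h1).1
    simpa using h2
  · intro z hz a ha w
    have hsmall : ∀ w : F, q w < 1 / 2 → a w ≤ 2 := by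
      intro w hw
      have hz' : q (z - z₀) < 1 / 2 := hz
      have h1 : z - z₀ ∈ W := hqW _ (lt_trans hz' (by norm_num))
      have h2 : z - z₀ + w ∈ W := hqW _ (lt_of_le_of_lt (map_add_le_add q _ _) (by linarith))
      have h3 := (hWsub h1)
      have h4 := (hWsub h2)
      simp only [mem_ofPred_eq, add_sub_cancel] at h3
      have e : z₀ + (z - z₀ + w) = z + w := by abel
      simp only [mem_ofPred_eq, e] at h4
      have h5 := ha (z + w) h4.1
      rw [add_sub_cancel_left] at h5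
      have h6 := (abs_lt.mp h3.2)
      have h7 := (abs_lt.mp h4.2)
      linarith
    have hgen : ∀ w : F, a w ≤ 4 * q w := by
      intro w
      apply le_of_forall_gt_imp_ge_of_dense
      intro r hr
      have hr0 : 0 < r := lt_of_le_of_lt (by positivity) hr
      have h1 : q ((2 / r) • w) < 1 / 2 := by
        rw [map_smul_eq_mul, Real.norm_eq_abs, abs_of_pos (by positivity), div_mul_eq_mul_div,
          div_lt_iff₀ hr0]
        linarith
      have h2 := hsmall _ h1
      rw [map_smul, smul_eq_mul, div_mul_eq_mul_div, div_le_iff₀ hr0] at h2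
      linarith
    have h8 : ((4 : NNReal) • q) w = 4 * q w := by
      simp [NNReal.smul_def]
    rw [h8, abs_le]
    refine ⟨?_, hgen w⟩
    have h9 := hgen (-w)
    rw [map_neg, map_neg_eq_map] at h9
    linarith

end subgrad

section fds

variable (E : Type*) [AddCommGroup E] [Module ℝ E] [TopologicalSpace E]

/-- `E` is a Fréchet differentiability space. -/
def IsFDS : Prop :=
  ∀ (D : Set E) (f : E → ℝ), D.Nonempty → IsOpen D → Convex ℝ D → ConvexOn ℝ D f →
    ContinuousOn f D → D ⊆ closure {x | x ∈ D ∧ FrechetDiffAt f x}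

variable {E}

theorem IsFDS.of_isAsplund (h : IsAsplund E) : IsFDS E := by
  intro D f h1 h2 h3 h4 h5
  obtain ⟨G, hGD, -, hd, hG⟩ := h D f h1 h2 h3 h4 h5
  exact hd.trans (closure_mono fun x hx => ⟨hGD hx, hG x hx⟩)

variable [IsTopologicalAddGroup E] [ContinuousSMul ℝ E]

theorem IsFDS.prod_real (h : IsFDS E) : IsFDS (E × ℝ) := by
  intro D f hDne hD hDc hf hfc z hz
  rw [mem_closure_iff]
  intro O hO hzO
  obtain ⟨σ, r, K, hr, V, hVo, hVne, hVsl, hVO, hVmax⟩ := exists_params hD hfc hz hO hzO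
  have hr' : (0 : ℝ) < (r : ℝ) := by exact_mod_cast hr
  obtain ⟨y, hyV⟩ := hVne
  have hycl := h (slab D (σ : ℝ) (r : ℝ)) (H f (σ : ℝ) (r : ℝ) (K : ℝ)) ⟨y, hVsl hyV⟩
    (isOpen_slab hD _ _) (convex_slab hDc _ _) (convexOn_H hr' hf hfc) (continuousOn_H hfc)
    (hVsl hyV)
  obtain ⟨x, hxV, hxs, hxF⟩ := mem_closure_iff.mp hycl V hVo hyV
  obtain ⟨s, hs, hmax, -⟩ := exists_argmax (K := (K : ℝ)) hr' hfc (hVsl hxV)
  have hsr := hVmax x hxV s hs hmax
  exact ⟨(x, s), hVO x hxV s hs, hVsl hxV _ hs,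
    frechetDiffAt_of_argmax hr' (by positivity) hD hf hfc (hVsl hxV) hsr hmax.symm hxF⟩

end fds

end Pool.Agent.Work.MP_6cbae3_an_helper29
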