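import Mathlib
import Pool.Agent.Work.MP_6cbae3_an_helper29.Subgrad

/-!
# Baire Fréchet differentiability spaces with countably webbed bornology are Asplund

The bornology of `F` is *webbed at the seminorm `p`* if there are increasing sequences
`S j 0 ⊆ S j 1 ⊆ ...` (`j = 0, 1, ...`) of sets such that every bounded set is, for every `j`,
contained in some `S j n`, and such that every set with this property agrees modulo the kernel of
`p` with a bounded set.
-/

set_option autoImplicit false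
set_option linter.unusedSectionVars false

open Set Topology Filter
open Pool.Agent.Results.MP_6cbae3_an.NonBaire

namespace Pool.Agent.Work.MP_6cbae3_an_helper29

variable {F : Type*} [AddCommGroup F] [Module ℝ F] [TopologicalSpace F]

/-- The bornology is webbed at `p`. -/
def Webbed (p : Seminorm ℝ F) : Prop :=
  ∃ S : ℕ → ℕ → Set F, (∀ j, Monotone (S j)) ∧
    (∀ B : Set F, Bornology.IsVonNBounded ℝ B → ∀ j, ∃ n, B ⊆ S j n) ∧
    ∀ A : Set F, (∀ j, ∃ n, A ⊆ S j n) →
      ∃ B : Set F, Bornology.IsVonNBounded ℝ B ∧ ∀ a ∈ A, ∃ b ∈ B, p (a - b) = 0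

/-- The set of all `z` at which second differences in the direction of a bounded set `B` are not
small, where `B ⊆ S j (c j)` for `j < m`. -/
def Bad (f : F → ℝ) (D : Set F) (S : ℕ → ℕ → Set F) (ε : ℝ) (m : ℕ) (c : ℕ → ℕ) : Set F :=
  {z | z ∈ D ∧ ∃ B : Set F, Bornology.IsVonNBounded ℝ B ∧ (∀ j < m, B ⊆ S j (c j)) ∧
    ∀ δ : ℝ, 0 < δ → ∃ t : ℝ, 0 < t ∧ t < δ ∧ ∃ h ∈ B, z + t • h ∈ D ∧ z - t • h ∈ D ∧
      ε * t ≤ f (z + t • h) + f (z - t • h) - 2 * f z}

variable [IsTopologicalAddGroup F] [ContinuousSMul ℝ F] {f : F → ℝ} {D : Set F}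

/-- Small multiples of a bounded set. -/
theorem exists_small {B : Set F} (hB : Bornology.IsVonNBounded ℝ B) {U : Set F} {z : F}
    (hU : IsOpen U) (hz : z ∈ U) :
    ∃ δ : ℝ, 0 < δ ∧ ∀ t : ℝ, |t| < δ → ∀ h ∈ B, z + t • h ∈ U := by
  have hnhds : {w : F | z + w ∈ U} ∈ 𝓝 (0 : F) := by
    have : Tendsto (fun w : F => z + w) (𝓝 0) (𝓝 z) := by
      have h : Continuous fun w : F => z + w := by fun_prop
      simpa using h.tendsto 0
    exact this (hU.mem_nhds hz)
  have habs := hB hnhds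
  rw [absorbs_iff_eventually_nhds_zero (mem_of_mem_nhds hnhds), Metric.eventually_nhds_iff] at habs
  obtain ⟨δ, hδ, hδ'⟩ := habs
  refine ⟨δ, hδ, fun t ht h hh => ?_⟩
  exact hδ' (y := t) (by rwa [dist_zero_right, Real.norm_eq_abs]) hh

theorem mem_bad_of_not (hD : IsOpen D) (hf : ConvexOn ℝ D f) (hfc : ContinuousOn f D)
    (S : ℕ → ℕ → Set F) (c : ℕ → ℕ) {z : F} (hz : z ∈ D) (hn : ¬ FrechetDiffAt f z) :
    ∃ k : ℕ, z ∈ Bad f D S (1 / ((k : ℝ) + 1)) 0 c := by
  obtain ⟨a, ha⟩ := exists_subgrad hD hf hfc hz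
  unfold FrechetDiffAt at hn
  push Not at hn
  obtain ⟨B, hB, ε, hε, hBε⟩ := hn a
  obtain ⟨k, hk⟩ := exists_nat_one_div_lt (show (0 : ℝ) < ε / 2 by linarith)
  obtain ⟨δ₀, hδ₀, hsmall⟩ := exists_small hB hD hz
  refine ⟨k, hz, B, hB, fun j hj => absurd hj (Nat.not_lt_zero j), fun δ hδ => ?_⟩
  obtain ⟨t, ht0, htδ, h1⟩ := hBε (min δ δ₀) (lt_min hδ hδ₀)
  obtain ⟨h, hhB, hh⟩ := h1 (ε / 2) (by linarith)
  have ht1 : |t| < δ := htδ.trans_le (min_le_left _ _)
  have ht2 : |t| < δ₀ := htδ.trans_le (min_le_right _ _)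
  have hp : z + |t| • h ∈ D := hsmall _ (by rwa [abs_abs]) h hhB
  have hm : z - |t| • h ∈ D := by
    have := hsmall (-|t|) (by rwa [abs_neg, abs_abs]) h hhB
    rwa [neg_smul, ← sub_eq_add_neg] at this
  have hsp := ha _ hp
  have hsm := ha _ hm
  rw [add_sub_cancel_left, map_smul, smul_eq_mul] at hsp
  rw [sub_sub_cancel_left, map_neg, map_smul, smul_eq_mul] at hsm
  refine ⟨|t|, ht0, ht1, h, hhB, hp, hm, ?_⟩
  have hkey : ε / 2 * |t| < f (z + |t| • h) + f (z - |t| • h) - 2 * f z := by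
    rcases lt_or_gt_of_ne (abs_pos.mp ht0) with htn | htp
    · rw [abs_of_neg htn] at hp hm hsp hsm ⊢
      have e : z + t • h = z - (-t) • h := by rw [neg_smul, sub_neg_eq_add]
      rw [e] at hh
      have hne : t ≠ 0 := htn.ne
      have h2 : (f (z - (-t) • h) - f z) / t - a h =
          -((f (z - (-t) • h) - f z + (-t) * a h) / (-t)) := by
        field_simp
        ring
      have hnn : 0 ≤ f (z - (-t) • h) - f z + (-t) * a h := by linarith
      rw [h2, abs_neg, abs_of_nonneg (div_nonneg hnn (by linarith)), lt_div_iff₀ (by linarith)] at hh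
      linarith
    · rw [abs_of_pos htp] at hp hm hsp hsm ⊢
      have hne : t ≠ 0 := htp.ne'
      have h2 : (f (z + t • h) - f z) / t - a h = (f (z + t • h) - f z - t * a h) / t := by
        field_simp
      have hnn : 0 ≤ f (z + t • h) - f z - t * a h := by linarith
      rw [h2, abs_of_nonneg (div_nonneg hnn (by linarith)), lt_div_iff₀ (by linarith)] at hh
      linarith
  calc 1 / ((k : ℝ) + 1) * |t| ≤ ε / 2 * |t| := by gcongr
    _ ≤ _ := hkey.le

theorem bad_succ {S : ℕ → ℕ → Set F}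
    (hS : ∀ B : Set F, Bornology.IsVonNBounded ℝ B → ∀ j, ∃ n, B ⊆ S j n)
    {ε : ℝ} {m : ℕ} {c : ℕ → ℕ} {z : F} (hz : z ∈ Bad f D S ε m c) :
    ∃ n, z ∈ Bad f D S ε (m + 1) (Function.update c m n) := by
  obtain ⟨hzD, B, hB, hBS, h⟩ := hz
  obtain ⟨n, hn⟩ := hS B hB m
  refine ⟨n, hzD, B, hB, fun j hj => ?_, h⟩
  rcases Nat.lt_succ_iff_lt_or_eq.mp hj with hj' | rfl
  · rw [Function.update_of_ne (by omega)]
    exact hBS j hj'
  · rw [Function.update_self]
    exact hn

/-- A node of the tree. -/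
structure St (f : F → ℝ) (D : Set F) (S : ℕ → ℕ → Set F) (ε : ℝ) where
  m : ℕ
  V : Set F
  c : ℕ → ℕ
  nm : NM (Bad f D S ε m c) V

theorem exists_child {S : ℕ → ℕ → Set F}
    (hS : ∀ B : Set F, Bornology.IsVonNBounded ℝ B → ∀ j, ∃ n, B ⊆ S j n)
    {ε : ℝ} (s : St f D S ε) {V : Set F} (hVs : V ⊆ s.V) (hVo : IsOpen V) (hVne : V.Nonempty) :
    ∃ s' : St f D S ε, s'.m = s.m + 1 ∧ s'.V ⊆ V ∧ ∀ j < s.m, s'.c j = s.c j := by
  have h1 : ¬ IsMeagre (Bad f D S ε s.m s.c ∩ V) := s.nm.2.2 V hVs hVo hVne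
  have h2 : Bad f D S ε s.m s.c ∩ V ⊆
      ⋃ n : ℕ, Bad f D S ε (s.m + 1) (Function.update s.c s.m n) ∩ V := by
    rintro z ⟨hz, hzV⟩
    obtain ⟨n, hn⟩ := bad_succ hS hz
    exact mem_iUnion.mpr ⟨n, hn, hzV⟩
  obtain ⟨n, hn⟩ : ∃ n : ℕ, ¬ IsMeagre (Bad f D S ε (s.m + 1) (Function.update s.c s.m n) ∩ V) := by
    by_contra hcon
    push Not at hcon
    exact h1 (IsMeagre.mono h2 (isMeagre_iUnion hcon))
  obtain ⟨V', hV'V, hV'⟩ := exists_NM hVo hn
  exact ⟨⟨s.m + 1, V', Function.update s.c s.m n, hV'⟩, rfl, hV'V,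
    fun j hj => Function.update_of_ne (by omega) _ _⟩

theorem step (hfc : ContinuousOn f D) (hD : IsOpen D) {S : ℕ → ℕ → Set F}
    (hS : ∀ B : Set F, Bornology.IsVonNBounded ℝ B → ∀ j, ∃ n, B ⊆ S j n)
    {ε : ℝ} (hε : 0 < ε) (s : St f D S ε) :
    ∃ (h : F) (r : ℝ) (s₀ s₁ : St f D S ε), (∀ j < s.m, h ∈ S j (s.c j)) ∧
      (s₀.m = s.m + 1 ∧ s₀.V ⊆ s.V ∧ ∀ j < s.m, s₀.c j = s.c j) ∧
      (s₁.m = s.m + 1 ∧ s₁.V ⊆ s.V ∧ ∀ j < s.m, s₁.c j = s.c j) ∧
      (∀ z ∈ s₀.V, ∀ a : F →L[ℝ] ℝ, IsSubgrad f D z a → r + ε / 2 ≤ a h) ∧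
      (∀ z ∈ s₁.V, ∀ a : F →L[ℝ] ℝ, IsSubgrad f D z a → a h ≤ r) := by
  obtain ⟨z, ⟨hzD, B, hB, hBS, hbad⟩, hzV⟩ := s.nm.inter_nonempty
  obtain ⟨δ, hδ, hsmall⟩ := exists_small hB (s.nm.1.inter hD) ⟨hzV, hzD⟩
  obtain ⟨t, ht0, htδ, h, hhB, hp, hm, hlarge⟩ := hbad δ hδ
  have hpV : z + t • h ∈ s.V := (hsmall t (by rwa [abs_of_pos ht0]) h hhB).1
  have hmV : z - t • h ∈ s.V := by
    have := (hsmall (-t) (by rwa [abs_neg, abs_of_pos ht0]) h hhB).1
    rwa [neg_smul, ← sub_eq_add_neg] at this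
  set α : ℝ := (f (z + t • h) - f z) / t with hα
  set β : ℝ := (f z - f (z - t • h)) / t with hβ
  have hαβ : ε ≤ α - β := by
    rw [hα, hβ, ← sub_div, le_div_iff₀ ht0]
    linarith
  -- the two neighbourhoods
  set V₀ : Set F := {z' | z' ∈ s.V ∩ D ∧ z' - t • h ∈ D ∧ (α - ε / 4) * t < f z' - f (z' - t • h)}
    with hV₀
  set V₁ : Set F := {z' | z' ∈ s.V ∩ D ∧ z' + t • h ∈ D ∧ f (z' + t • h) - f z' < (β + ε / 4) * t}
    with hV₁
  have hV₀o : IsOpen V₀ := by
    have hO : IsOpen ((s.V ∩ D) ∩ (fun z' => z' - t • h) ⁻¹' D) :=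
      (s.nm.1.inter hD).inter (hD.preimage (by fun_prop))
    have hc : ContinuousOn (fun z' => f z' - f (z' - t • h))
        ((s.V ∩ D) ∩ (fun z' => z' - t • h) ⁻¹' D) :=
      (hfc.mono (fun x hx => hx.1.2)).sub
        (hfc.comp (by fun_prop) (fun x hx => hx.2))
    have h2 := hc.isOpen_inter_preimage hO (isOpen_Ioi (a := (α - ε / 4) * t))
    convert h2 using 1
    ext x
    simp only [hV₀, mem_ofPred_eq, mem_inter_iff, mem_preimage, mem_Ioi]
    tauto
  have hV₁o : IsOpen V₁ := by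
    have hO : IsOpen ((s.V ∩ D) ∩ (fun z' => z' + t • h) ⁻¹' D) :=
      (s.nm.1.inter hD).inter (hD.preimage (by fun_prop))
    have hc : ContinuousOn (fun z' => f (z' + t • h) - f z')
        ((s.V ∩ D) ∩ (fun z' => z' + t • h) ⁻¹' D) :=
      (hfc.comp (by fun_prop) (fun x hx => hx.2)).sub (hfc.mono (fun x hx => hx.1.2))
    have h2 := hc.isOpen_inter_preimage hO (isOpen_Iio (a := (β + ε / 4) * t))
    convert h2 using 1
    ext x
    simp only [hV₁, mem_ofPred_eq, mem_inter_iff, mem_preimage, mem_Iio]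
    tauto
  have hV₀ne : V₀.Nonempty := by
    refine ⟨z + t • h, ⟨hpV, hp⟩, ?_, ?_⟩
    · rwa [add_sub_cancel_right]
    · rw [add_sub_cancel_right]
      have : f (z + t • h) - f z = α * t := by rw [hα]; field_simp
      rw [this]
      nlinarith
  have hV₁ne : V₁.Nonempty := by
    refine ⟨z - t • h, ⟨hmV, hm⟩, ?_, ?_⟩
    · rwa [sub_add_cancel]
    · rw [sub_add_cancel]
      have : f z - f (z - t • h) = β * t := by rw [hβ]; field_simp
      rw [this]
      nlinarith
  obtain ⟨s₀, hs₀m, hs₀V, hs₀c⟩ := exists_child hS s (fun x hx => hx.1.1) hV₀o hV₀ne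
  obtain ⟨s₁, hs₁m, hs₁V, hs₁c⟩ := exists_child hS s (fun x hx => hx.1.1) hV₁o hV₁ne
  refine ⟨h, β + ε / 4, s₀, s₁, fun j hj => hBS j hj hhB,
    ⟨hs₀m, hs₀V.trans (fun x hx => hx.1.1), hs₀c⟩,
    ⟨hs₁m, hs₁V.trans (fun x hx => hx.1.1), hs₁c⟩, ?_, ?_⟩
  · intro z' hz' a ha
    obtain ⟨-, h1, h2⟩ := hs₀V hz'
    have h3 := ha _ h1
    rw [sub_sub_cancel_left, map_neg, map_smul, smul_eq_mul] at h3
    have h4 : (α - ε / 4) * t < a h * t := by linarith
    have h5 := lt_of_mul_lt_mul_right h4 ht0.le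
    linarith
  · intro z' hz' a ha
    obtain ⟨-, h1, h2⟩ := hs₁V hz'
    have h3 := ha _ h1
    rw [add_sub_cancel_left, map_smul, smul_eq_mul] at h3
    have h4 : a h * t < (β + ε / 4) * t := by linarith
    exact (lt_of_mul_lt_mul_right h4 ht0.le).le

/-- The tree of nodes. -/
noncomputable def tree {S : ℕ → ℕ → Set F} {ε : ℝ} (s₀ s₁ : St f D S ε → St f D S ε)
    (root : St f D S ε) : List Bool → St f D S ε
  | [] => root
  | true :: σ => s₀ (tree s₀ s₁ root σ)
  | false :: σ => s₁ (tree s₀ s₁ root σ)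

/-- Averages over the descendants `k` generations below. -/
noncomputable def avg (a : List Bool → F →ₗ[ℝ] ℝ) : ℕ → List Bool → F →ₗ[ℝ] ℝ
  | 0, σ => a σ
  | k + 1, σ => (1 / 2 : ℝ) • (avg a k (true :: σ) + avg a k (false :: σ))

theorem abs_avg_le {a : List Bool → F →ₗ[ℝ] ℝ} {p : Seminorm ℝ F} (h : ∀ σ x, |a σ x| ≤ p x)
    (k : ℕ) : ∀ σ x, |avg a k σ x| ≤ p x := by
  induction k with
  | zero => exact h
  | succ k ih =>
    intro σ x
    have h1 := abs_le.mp (ih (true :: σ) x)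
    have h2 := abs_le.mp (ih (false :: σ) x)
    simp only [avg, LinearMap.smul_apply, LinearMap.add_apply, smul_eq_mul]
    rw [abs_le]
    constructor <;> linarith

/-- A dyadic tree of functionals from a tree of functionals with separation. -/
theorem exists_dyadic (a : List Bool → F →ₗ[ℝ] ℝ) {p : Seminorm ℝ F}
    (ha : ∀ σ x, |a σ x| ≤ p x) (h : List Bool → F) (r : List Bool → ℝ) (η : ℝ)
    (h₀ : ∀ σ τ, r σ + η ≤ a (τ ++ true :: σ) (h σ))
    (h₁ : ∀ σ τ, a (τ ++ false :: σ) (h σ) ≤ r σ) :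
    ∃ b : List Bool → F →ₗ[ℝ] ℝ, (∀ σ x, |b σ x| ≤ p x) ∧
      (∀ σ x, b σ x = (1 / 2) * (b (true :: σ) x + b (false :: σ) x)) ∧
      (∀ σ, η ≤ b (true :: σ) (h σ) - b (false :: σ) (h σ)) := by
  -- the averages satisfy the same inequalities
  have hA₀ : ∀ k σ τ, r σ + η ≤ avg a k (τ ++ true :: σ) (h σ) := by
    intro k
    induction k with
    | zero => exact h₀
    | succ k ih =>
      intro σ τ
      have h1 := ih σ (true :: τ)
      have h2 := ih σ (false :: τ)
      simp only [avg, LinearMap.smul_apply, LinearMap.add_apply, smul_eq_mul]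
      simp only [List.cons_append] at h1 h2
      linarith
  have hA₁ : ∀ k σ τ, avg a k (τ ++ false :: σ) (h σ) ≤ r σ := by
    intro k
    induction k with
    | zero => exact h₁
    | succ k ih =>
      intro σ τ
      have h1 := ih σ (true :: τ)
      have h2 := ih σ (false :: τ)
      simp only [avg, LinearMap.smul_apply, LinearMap.add_apply, smul_eq_mul]
      simp only [List.cons_append] at h1 h2
      linarith
  -- ultralimits
  set 𝒰 : Ultrafilter ℕ := Filter.hyperfilter ℕ with h𝒰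
  have h𝒰t : (𝒰 : Filter ℕ) ≤ atTop := Nat.hyperfilter_le_atTop
  have hlim : ∀ (σ : List Bool) (x : F), ∃ L ∈ Icc (-p x) (p x),
      Tendsto (fun n => avg a (n - σ.length) σ x) 𝒰 (𝓝 L) := by
    intro σ x
    have h1 : ∀ n, avg a (n - σ.length) σ x ∈ Icc (-p x) (p x) :=
      fun n => abs_le.mp (abs_avg_le ha _ σ x)
    have h2 := (isCompact_Icc (a := -p x) (b := p x)).ultrafilter_le_nhds
      (𝒰.map (fun n => avg a (n - σ.length) σ x)) (by
        rw [le_principal_iff, Ultrafilter.mem_coe, Ultrafilter.mem_map]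
        exact Filter.univ_mem' h1)
    exact h2
  choose L hLI hL using hlim
  have hlin : ∀ σ, ∃ b : F →ₗ[ℝ] ℝ, ∀ x, b x = L σ x := by
    intro σ
    refine ⟨{ toFun := L σ, map_add' := ?_, map_smul' := ?_ }, fun x => rfl⟩
    · intro x y
      have h1 := (hL σ x).add (hL σ y)
      have h2 := hL σ (x + y)
      simp only [map_add] at h2
      exact tendsto_nhds_unique h2 h1
    · intro t x
      have h1 := (hL σ x).const_mul t
      have h2 := hL σ (t • x)
      simp only [map_smul, smul_eq_mul] at h2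
      exact tendsto_nhds_unique h2 h1
  choose b hb using hlin
  refine ⟨b, ?_, ?_, ?_⟩
  · intro σ x
    rw [hb, abs_le]
    exact hLI σ x
  · intro σ x
    rw [hb, hb, hb]
    have h1 := ((hL (true :: σ) x).add (hL (false :: σ) x)).const_mul (1 / 2)
    have h2 := hL σ x
    refine tendsto_nhds_unique_of_eventuallyEq h2 h1 ?_
    have h3 : ∀ᶠ n in (𝒰 : Filter ℕ), σ.length + 1 ≤ n := h𝒰t (eventually_ge_atTop _)
    filter_upwards [h3] with n hn
    have e : n - σ.length = (n - (σ.length + 1)) + 1 := by omega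
    rw [e]
    simp only [avg, LinearMap.smul_apply, LinearMap.add_apply, smul_eq_mul, List.length_cons]
  · intro σ
    rw [hb, hb]
    have h1 : r σ + η ≤ L (true :: σ) (h σ) :=
      ge_of_tendsto (hL (true :: σ) (h σ)) (Filter.Eventually.of_forall fun n => hA₀ _ σ [])
    have h2 : L (false :: σ) (h σ) ≤ r σ :=
      le_of_tendsto (hL (false :: σ) (h σ)) (Filter.Eventually.of_forall fun n => hA₁ _ σ [])
    linarith

/-- A dyadic tree of functionals separated by vectors that agree modulo the kernel of `p` with a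
bounded set contradicts the existence of points of Fréchet differentiability. -/
theorem not_isFDS_of_dyadic {p : Seminorm ℝ F} (hp : Continuous p) (b : List Bool → F →ₗ[ℝ] ℝ)
    (hb : ∀ σ x, |b σ x| ≤ p x)
    (hmid : ∀ σ x, b σ x = (1 / 2) * (b (true :: σ) x + b (false :: σ) x))
    (h : List Bool → F) {η : ℝ} (hη : 0 < η)
    (hsep : ∀ σ, η ≤ b (true :: σ) (h σ) - b (false :: σ) (h σ))
    {B : Set F} (hB : Bornology.IsVonNBounded ℝ B) (hBh : ∀ σ, ∃ y ∈ B, p (h σ - y) = 0) :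
    ¬ IsFDS F := by
  intro hF
  set g : F → ℝ := fun x => ⨆ σ, b σ x with hg
  have hbdd : ∀ x, BddAbove (range fun σ => b σ x) := by
    intro x
    refine ⟨p x, ?_⟩
    rintro _ ⟨σ, rfl⟩
    exact (abs_le.mp (hb σ x)).2
  have hle : ∀ σ x, b σ x ≤ g x := fun σ x => le_ciSup (hbdd x) σ
  have hgconv : ConvexOn ℝ univ g := by
    refine ⟨convex_univ, fun x _ y _ s t hs ht hst => ?_⟩
    apply ciSup_le
    intro σ
    rw [map_add, map_smul, map_smul, smul_eq_mul, smul_eq_mul, smul_eq_mul, smul_eq_mul]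
    have h1 := hle σ x
    have h2 := hle σ y
    nlinarith
  have hglip : ∀ x y, g x ≤ g y + p (x - y) := by
    intro x y
    apply ciSup_le
    intro σ
    have h1 := hle σ y
    have h2 := (abs_le.mp (hb σ (x - y))).2
    rw [map_sub] at h2
    linarith
  have hgcont : Continuous g := by
    rw [continuous_iff_continuousAt]
    intro x
    rw [ContinuousAt, Metric.tendsto_nhds]
    intro ε hε
    have h1 : Tendsto (fun y => p (y - x)) (𝓝 x) (𝓝 0) := by
      have : Continuous fun y => p (y - x) := by fun_prop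
      simpa using this.tendsto x
    have h2 := (Metric.tendsto_nhds.mp h1) ε hε
    filter_upwards [h2] with y hy
    rw [Real.dist_eq] at hy ⊢
    rw [sub_zero, abs_of_nonneg (apply_nonneg p _)] at hy
    have h3 := hglip y x
    have h4 := hglip x y
    rw [map_sub_rev] at h4
    rw [abs_lt]
    constructor <;> linarith
  obtain ⟨x, -, a, ha⟩ : ∃ x, x ∈ (univ : Set F) ∧ FrechetDiffAt g x := by
    have h1 := hF univ g univ_nonempty isOpen_univ convex_univ hgconv hgcont.continuousOn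
    obtain ⟨x, -, hx⟩ := mem_closure_iff.mp (h1 (mem_univ (0 : F))) univ isOpen_univ (mem_univ _)
    exact ⟨x, hx⟩
  obtain ⟨δ, hδ, hδ'⟩ := ha B hB (η / 32) (by positivity)
  set t : ℝ := δ / 2 with ht
  have ht0 : 0 < t := by positivity
  have htδ : t < δ := by rw [ht]; linarith
  have hup : ∀ y ∈ B, g (x + t • y) ≤ g x + t * a y + t * (η / 32) := by
    intro y hy
    obtain ⟨ρ, hρ, hρ'⟩ := hδ' t (by rwa [abs_of_pos ht0]) (by rwa [abs_of_pos ht0])
    have h1 := (abs_le.mp (hρ' y hy)).2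
    have h2 : (g (x + t • y) - g x) / t ≤ a y + η / 32 := by linarith
    rw [div_le_iff₀ ht0] at h2
    linarith
  have hdown : ∀ y ∈ B, g (x - t • y) ≤ g x - t * a y + t * (η / 32) := by
    intro y hy
    obtain ⟨ρ, hρ, hρ'⟩ := hδ' (-t) (by rwa [abs_neg, abs_of_pos ht0])
      (by rwa [abs_neg, abs_of_pos ht0])
    have h1 := (abs_le.mp (hρ' y hy)).1
    rw [neg_smul, ← sub_eq_add_neg] at h1
    have h2 : a y - η / 32 ≤ (g (x - t • y) - g x) / (-t) := by linarith
    rw [le_div_iff_of_neg (by linarith)] at h2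
    linarith
  obtain ⟨σ, hσ⟩ : ∃ σ, g x - t * (η / 32) < b σ x :=
    exists_lt_of_lt_ciSup (by
      have : 0 < t * (η / 32) := by positivity
      show g x - t * (η / 32) < g x
      linarith)
  have hclose : ∀ τ, g x - t * (η / 32) < b τ x → ∀ y ∈ B, |b τ y - a y| ≤ η / 16 := by
    intro τ hτ y hy
    have h1 := (hle τ (x + t • y)).trans (hup y hy)
    have h2 := (hle τ (x - t • y)).trans (hdown y hy)
    rw [map_add, map_smul, smul_eq_mul] at h1
    rw [map_sub, map_smul, smul_eq_mul] at h2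
    rw [abs_le]
    constructor
    · by_contra hcon
      push Not at hcon
      nlinarith
    · by_contra hcon
      push Not at hcon
      nlinarith
  obtain ⟨y, hyB, hy⟩ := hBh σ
  have heq : ∀ τ, b τ (h σ) = b τ y := by
    intro τ
    have h1 := hb τ (h σ - y)
    rw [hy] at h1
    have h2 := abs_nonpos_iff.mp h1
    rw [map_sub] at h2
    linarith
  have hs := hsep σ
  rw [heq, heq] at hs
  have hm1 := hmid σ x
  have hm2 := hmid σ y
  have hc := abs_le.mp (hclose σ hσ y hyB)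
  rcases le_total (b (false :: σ) x) (b (true :: σ) x) with hcase | hcase
  · have h3 := abs_le.mp (hclose (true :: σ) (by linarith) y hyB)
    linarith
  · have h3 := abs_le.mp (hclose (false :: σ) (by linarith) y hyB)
    linarith

end Pool.Agent.Work.MP_6cbae3_an_helper29
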