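import Mathlib
import Pool.Agent.Work.MP_6cbae3_an_helper29.Tree

/-!
# Asplund products for spaces with webbed bornology
-/

set_option autoImplicit false
set_option linter.unusedSectionVars false

open Set Topology Filter
open scoped Pointwise
open Pool.Agent.Results.MP_6cbae3_an.NonBaire

namespace Pool.Agent.Work.MP_6cbae3_an_helper29

section baire

variable {F : Type*} [AddCommGroup F] [Module ℝ F] [TopologicalSpace F] [IsTopologicalAddGroup F]
  [ContinuousSMul ℝ F]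

theorem isMeagre_not_frechet [LocallyConvexSpace ℝ F] (hF : IsFDS F)
    (hW : ∀ p : Seminorm ℝ F, Continuous p → Webbed p) {D : Set F} {f : F → ℝ} (hD : IsOpen D)
    (hf : ConvexOn ℝ D f) (hfc : ContinuousOn f D) :
    IsMeagre {z | z ∈ D ∧ ¬ FrechetDiffAt f z} := by
  by_contra hN
  set N : Set F := {z | z ∈ D ∧ ¬ FrechetDiffAt f z} with hNdef
  obtain ⟨V, -, hV⟩ : ∃ V ⊆ (univ : Set F), NM N V := exists_NM isOpen_univ (by rwa [inter_univ])
  obtain ⟨z₀, hz₀N, hz₀V⟩ := hV.inter_nonempty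
  obtain ⟨p, hp, V₁, hV₁o, hz₀V₁, hV₁D, hV₁⟩ := exists_seminorm_bound hD hfc hz₀N.1
  obtain ⟨S, hSm, hSB, hSA⟩ := hW p hp
  have h1 : ¬ IsMeagre (N ∩ (V ∩ V₁)) :=
    hV.2.2 _ inter_subset_left (hV.1.inter hV₁o) ⟨z₀, hz₀V, hz₀V₁⟩
  have h2 : N ∩ (V ∩ V₁) ⊆
      ⋃ k : ℕ, Bad f D S (1 / ((k : ℝ) + 1)) 0 (fun _ => 0) ∩ (V ∩ V₁) := by
    rintro z ⟨hz, hzV⟩
    obtain ⟨k, hk⟩ := mem_bad_of_not hD hf hfc S (fun _ => 0) hz.1 hz.2
    exact mem_iUnion.mpr ⟨k, hk, hzV⟩
  obtain ⟨k, hk⟩ : ∃ k : ℕ, ¬ IsMeagre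
      (Bad f D S (1 / ((k : ℝ) + 1)) 0 (fun _ => 0) ∩ (V ∩ V₁)) := by
    by_contra hcon
    push Not at hcon
    exact h1 (IsMeagre.mono h2 (isMeagre_iUnion hcon))
  set ε : ℝ := 1 / ((k : ℝ) + 1) with hε
  have hε0 : 0 < ε := by positivity
  obtain ⟨V₂, hV₂, hV₂nm⟩ := exists_NM (hV.1.inter hV₁o) hk
  set root : St f D S ε := ⟨0, V₂, fun _ => 0, hV₂nm⟩ with hroot
  choose hfun rfun s₀ s₁ hmem hs₀ hs₁ hsep₀ hsep₁ using
    fun s : St f D S ε => step hfc hD hSB hε0 s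
  set T : List Bool → St f D S ε := tree s₀ s₁ root with hT
  have hTt : ∀ σ, T (true :: σ) = s₀ (T σ) := fun σ => rfl
  have hTf : ∀ σ, T (false :: σ) = s₁ (T σ) := fun σ => rfl
  have hTm : ∀ σ, (T σ).m = σ.length := by
    intro σ
    induction σ with
    | nil => rfl
    | cons b σ ih =>
      cases b
      · rw [hTf, (hs₁ _).1, ih, List.length_cons]
      · rw [hTt, (hs₀ _).1, ih, List.length_cons]
  have hTVs : ∀ b σ, (T (b :: σ)).V ⊆ (T σ).V := by
    intro b σ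
    cases b
    · rw [hTf]; exact (hs₁ _).2.1
    · rw [hTt]; exact (hs₀ _).2.1
  have hTV : ∀ τ σ, (T (τ ++ σ)).V ⊆ (T σ).V := by
    intro τ σ
    induction τ with
    | nil => exact subset_rfl
    | cons b τ ih => exact (hTVs b (τ ++ σ)).trans ih
  have hTV₁ : ∀ σ, (T σ).V ⊆ V₁ := by
    intro σ
    have h3 := hTV σ []
    rw [List.append_nil] at h3
    exact h3.trans (hV₂.trans inter_subset_right)
  have hTc : ∀ b σ, ∀ j < σ.length, (T (b :: σ)).c j = (T σ).c j := by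
    intro b σ j hj
    rw [← hTm σ] at hj
    cases b
    · rw [hTf]; exact (hs₁ _).2.2 j hj
    · rw [hTt]; exact (hs₀ _).2.2 j hj
  -- points and subgradients
  have hpt : ∀ σ, ∃ z a, z ∈ (T σ).V ∧ IsSubgrad f D z a := by
    intro σ
    obtain ⟨z, hz⟩ := (T σ).nm.2.1
    obtain ⟨a, ha⟩ := exists_subgrad hD hf hfc (hV₁D (hTV₁ σ hz))
    exact ⟨z, a, hz, ha⟩
  choose pt a hpt ha using hpt
  obtain ⟨b, hb, hmid, hsep⟩ := exists_dyadic (fun σ => (a σ : F →ₗ[ℝ] ℝ)) (p := p)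
    (fun σ x => hV₁ _ (hTV₁ σ (hpt σ)) (a σ) (ha σ) x) (fun σ => hfun (T σ))
    (fun σ => rfun (T σ)) (ε / 2)
    (fun σ τ => hsep₀ (T σ) _ (by rw [← hTt]; exact hTV τ (true :: σ) (hpt _)) _ (ha _))
    (fun σ τ => hsep₁ (T σ) _ (by rw [← hTf]; exact hTV τ (false :: σ) (hpt _)) _ (ha _))
  -- the vectors are in one bounded set modulo the kernel of `p`
  have hbd : ∀ j, ∃ n, range (fun σ => hfun (T σ)) ⊆ S j n := by
    intro j
    have hsingle : ∀ σ, ∃ n, hfun (T σ) ∈ S j n := by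
      intro σ
      obtain ⟨n, hn⟩ := hSB {hfun (T σ)} (Bornology.isVonNBounded_singleton _) j
      exact ⟨n, hn rfl⟩
    choose n₁ hn₁ using hsingle
    have hfin : {l : List Bool | l.length ≤ j + 1}.Finite := List.finite_length_le Bool (j + 1)
    obtain ⟨M, hM⟩ := (hfin.image fun σ => max (n₁ σ) ((T σ).c j)).bddAbove
    have hM' : ∀ σ : List Bool, σ.length ≤ j + 1 → n₁ σ ≤ M ∧ (T σ).c j ≤ M := by
      intro σ hσ
      have h3 := hM (mem_image_of_mem _ hσ)
      exact ⟨(le_max_left _ _).trans h3, (le_max_right _ _).trans h3⟩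
    have hc : ∀ σ : List Bool, j + 1 ≤ σ.length → (T σ).c j ≤ M := by
      intro σ
      induction σ with
      | nil => intro h3; simp at h3
      | cons b σ ih =>
        intro h3
        rcases Nat.lt_or_ge (j + 1) (b :: σ).length with h4 | h4
        · rw [List.length_cons] at h4
          rw [hTc b σ j (by omega)]
          exact ih (by omega)
        · exact (hM' _ h4).2
    refine ⟨M, ?_⟩
    rintro _ ⟨σ, rfl⟩
    rcases le_total σ.length (j + 1) with h3 | h3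
    · exact hSm j (hM' σ h3).1 (hn₁ σ)
    · exact hSm j (hc σ h3) (hmem (T σ) j (by rw [hTm]; omega))
  obtain ⟨B, hB, hBh⟩ := hSA _ hbd
  exact not_isFDS_of_dyadic hp b hb hmid (fun σ => hfun (T σ)) (by positivity) hsep hB
    (fun σ => hBh _ (mem_range_self σ)) hF

theorem isAsplund_of_isFDS [LocallyConvexSpace ℝ F] [BaireSpace F] (hF : IsFDS F)
    (hW : ∀ p : Seminorm ℝ F, Continuous p → Webbed p) : IsAsplund F := by
  intro D f _ hD _ hf hfc
  have h1 := isMeagre_not_frechet hF hW hD hf hfc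
  rw [IsMeagre, mem_residual] at h1
  obtain ⟨t, hts, htG, htd⟩ := h1
  refine ⟨t ∩ D, inter_subset_right, htG.inter hD.isGδ, ?_, ?_⟩
  · rw [inter_comm]
    exact htd.open_subset_closure_inter hD
  · rintro x ⟨hxt, hxD⟩
    by_contra hx
    exact hts hxt ⟨hxD, hx⟩

end baire

section prod

variable {E : Type*} [AddCommGroup E] [Module ℝ E] [TopologicalSpace E] [IsTopologicalAddGroup E]
  [ContinuousSMul ℝ E]

theorem webbed_prod_real (hW : ∀ p : Seminorm ℝ E, Continuous p → Webbed p)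
    (q : Seminorm ℝ (E × ℝ)) (hq : Continuous q) : Webbed q := by
  obtain ⟨S, hSm, hSB, hSA⟩ := hW (q.comp (LinearMap.inl ℝ E ℝ)) (by
    have : (⇑(q.comp (LinearMap.inl ℝ E ℝ)) : E → ℝ) = fun x => q (x, 0) := rfl
    rw [this]
    fun_prop)
  let S' : ℕ → ℕ → Set (E × ℝ) := fun j n => match j with
    | 0 => {z | |z.2| ≤ (n : ℝ)}
    | j + 1 => {z | z.1 ∈ S j n}
  refine ⟨S', ?_, ?_, ?_⟩
  · intro j n n' hnn z hz
    cases j with
    | zero =>
      have h1 : |z.2| ≤ (n : ℝ) := hz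
      have h2 : (n : ℝ) ≤ n' := by exact_mod_cast hnn
      exact h1.trans h2
    | succ j => exact hSm j hnn hz
  · intro B hB j
    cases j with
    | zero =>
      have hB2 : Bornology.IsVonNBounded ℝ (Prod.snd '' B) :=
        hB.image (ContinuousLinearMap.snd ℝ E ℝ)
      rw [NormedSpace.isVonNBounded_iff, isBounded_iff_forall_norm_le] at hB2
      obtain ⟨M, hM⟩ := hB2
      obtain ⟨n, hn⟩ := exists_nat_ge M
      exact ⟨n, fun z hz => (hM z.2 ⟨z, hz, rfl⟩).trans hn⟩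
    | succ j =>
      have hB1 : Bornology.IsVonNBounded ℝ (Prod.fst '' B) :=
        hB.image (ContinuousLinearMap.fst ℝ E ℝ)
      obtain ⟨n, hn⟩ := hSB _ hB1 j
      exact ⟨n, fun z hz => hn ⟨z, hz, rfl⟩⟩
  · intro A hA
    obtain ⟨n₀, hn₀⟩ := hA 0
    obtain ⟨B, hB, hBA⟩ := hSA (Prod.fst '' A) (by
      intro j
      obtain ⟨n, hn⟩ := hA (j + 1)
      refine ⟨n, ?_⟩
      rintro _ ⟨z, hz, rfl⟩
      exact hn hz)
    refine ⟨(ContinuousLinearMap.inl ℝ E ℝ '' B) + (ContinuousLinearMap.inr ℝ E ℝ ''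
      (Metric.closedBall (0 : ℝ) n₀)), ?_, ?_⟩
    · apply Bornology.IsVonNBounded.add
      · exact hB.image _
      · apply Bornology.IsVonNBounded.image
        rw [NormedSpace.isVonNBounded_iff]
        exact Metric.isBounded_closedBall
    · intro z hz
      obtain ⟨y, hyB, hy⟩ := hBA z.1 ⟨z, hz, rfl⟩
      refine ⟨ContinuousLinearMap.inl ℝ E ℝ y + ContinuousLinearMap.inr ℝ E ℝ z.2,
        Set.add_mem_add ⟨y, hyB, rfl⟩ ⟨z.2, ?_, rfl⟩, ?_⟩
      · rw [mem_closedBall_zero_iff]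
        exact hn₀ hz
      · have h1 : z - (ContinuousLinearMap.inl ℝ E ℝ y + ContinuousLinearMap.inr ℝ E ℝ z.2) =
            LinearMap.inl ℝ E ℝ (z.1 - y) := by
          ext <;> simp
        rw [h1]
        exact hy

/-- The main theorem for spaces with webbed bornology. -/
theorem isAsplund_prod_real [LocallyConvexSpace ℝ E] (hE : IsAsplund E)
    (hW : ∀ p : Seminorm ℝ E, Continuous p → Webbed p) : IsAsplund (E × ℝ) := by
  by_cases hB : BaireSpace E
  · have : BaireSpace (E × ℝ) := baireSpace_prod_real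
    exact isAsplund_of_isFDS (IsFDS.prod_real (IsFDS.of_isAsplund hE)) (webbed_prod_real hW)
  · exact Pool.Agent.Results.MP_6cbae3_an.NonBaire.main hE hB

end prod

section metrizable

open scoped Pointwise

/-- A countable description of the bounded sets of a first countable space. -/
theorem exists_countable_desc (E : Type*) [AddCommGroup E] [Module ℝ E] [TopologicalSpace E]
    [IsTopologicalAddGroup E] [ContinuousSMul ℝ E] [FirstCountableTopology E] :
    ∃ W : ℕ → Set E, (∀ j, Balanced ℝ (W j)) ∧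
      ∀ A : Set E, Bornology.IsVonNBounded ℝ A ↔ ∀ j, ∃ n : ℕ, A ⊆ (n : ℝ) • W j := by
  obtain ⟨u, hu⟩ := (𝓝 (0 : E)).exists_antitone_basis
  refine ⟨fun j => balancedCore ℝ (u j), fun j => balancedCore_balanced _, fun A => ⟨?_, ?_⟩⟩
  · intro hA j
    have h1 := hA (balancedCore_mem_nhds_zero (𝕜 := ℝ) (hu.mem j))
    obtain ⟨r, hr⟩ := h1.exists_pos
    obtain ⟨n, hn⟩ := exists_nat_ge r
    exact ⟨n, hr.2 n (by rw [Real.norm_eq_abs, abs_of_nonneg (by positivity)]; exact hn)⟩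
  · intro h V hV
    obtain ⟨j, hj⟩ := hu.mem_iff.mp hV
    obtain ⟨n, hn⟩ := h j
    rw [absorbs_iff_norm]
    refine ⟨n, fun c hc => ?_⟩
    have h1 : (n : ℝ) • balancedCore ℝ (u j) ⊆ c • balancedCore ℝ (u j) :=
      (balancedCore_balanced (u j)).smul_mono (by simpa using hc)
    exact hn.trans (h1.trans (smul_set_mono ((balancedCore_subset _).trans hj)))

variable {I : Type*} {E : I → Type*} [∀ i, AddCommGroup (E i)] [∀ i, Module ℝ (E i)]
  [∀ i, TopologicalSpace (E i)] [∀ i, IsTopologicalAddGroup (E i)] [∀ i, ContinuousSMul ℝ (E i)]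
  [∀ i, FirstCountableTopology (E i)]

theorem webbed_pi (p : Seminorm ℝ (∀ i, E i)) (hp : Continuous p) : Webbed p := by
  classical
  -- `p` depends on finitely many coordinates
  have h1 : {x | p x < 1} ∈ 𝓝 (0 : ∀ i, E i) := by
    apply (isOpen_lt hp continuous_const).mem_nhds
    simp
  rw [nhds_pi, Filter.mem_pi] at h1
  obtain ⟨s, hs, t, ht, hst⟩ := h1
  have h0 : ∀ x : ∀ i, E i, (∀ i ∈ s, x i = 0) → p x = 0 := by
    intro x hx
    by_contra hne
    have hpos : 0 < p x := lt_of_le_of_ne (apply_nonneg p x) (Ne.symm hne)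
    obtain ⟨n, hn⟩ := exists_nat_gt (1 / p x)
    rw [div_lt_iff₀ hpos] at hn
    have h2 : (n : ℝ) • x ∈ {x | p x < 1} := by
      apply hst
      intro i hi
      have : ((n : ℝ) • x) i = 0 := by rw [Pi.smul_apply, hx i hi, smul_zero]
      rw [this]
      exact mem_of_mem_nhds (ht i)
    have h3 : p ((n : ℝ) • x) < 1 := h2
    rw [map_smul_eq_mul, Real.norm_eq_abs, abs_of_nonneg (by positivity)] at h3
    linarith
  choose W hWb hW using fun i => exists_countable_desc (E i)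
  refine ⟨fun j n => {x | ∀ i ∈ s, x i ∈ (n : ℝ) • W i j}, ?_, ?_, ?_⟩
  · intro j n n' hnn x hx i hi
    have h2 : (n : ℝ) • W i j ⊆ (n' : ℝ) • W i j := by
      apply (hWb i j).smul_mono
      rw [Real.norm_eq_abs, Real.norm_eq_abs, abs_of_nonneg (by positivity),
        abs_of_nonneg (by positivity)]
      exact_mod_cast hnn
    exact h2 (hx i hi)
  · intro B hB j
    rw [Bornology.isVonNBounded_pi_iff] at hB
    have h2 : ∀ i, ∃ n : ℕ, Function.eval i '' B ⊆ (n : ℝ) • W i j := fun i =>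
      (hW i _).mp (hB i) j
    choose n hn using h2
    obtain ⟨M, hM⟩ := (hs.image n).bddAbove
    refine ⟨M, fun x hx i hi => ?_⟩
    have h3 : (n i : ℝ) • W i j ⊆ (M : ℝ) • W i j := by
      apply (hWb i j).smul_mono
      rw [Real.norm_eq_abs, Real.norm_eq_abs, abs_of_nonneg (by positivity),
        abs_of_nonneg (by positivity)]
      exact_mod_cast hM (mem_image_of_mem n hi)
    exact h3 (hn i ⟨x, hx, rfl⟩)
  · intro A hA
    refine ⟨(fun a i => if i ∈ s then a i else 0) '' A, ?_, ?_⟩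
    · rw [Bornology.isVonNBounded_pi_iff]
      intro i
      by_cases hi : i ∈ s
      · rw [hW i]
        intro j
        obtain ⟨n, hn⟩ := hA j
        refine ⟨n, ?_⟩
        rintro _ ⟨_, ⟨a, ha, rfl⟩, rfl⟩
        simp only [Function.eval, if_pos hi]
        exact hn ha i hi
      · apply (Bornology.isVonNBounded_singleton (0 : E i)).subset
        rintro _ ⟨_, ⟨a, ha, rfl⟩, rfl⟩
        simp only [Function.eval, if_neg hi]
        rfl
    · intro a ha
      refine ⟨_, ⟨a, ha, rfl⟩, h0 _ fun i hi => ?_⟩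
      simp only [Pi.sub_apply, if_pos hi, sub_self]

/-- Transfer along an isomorphism. -/
theorem webbed_of_equiv {E₁ E₂ : Type*} [AddCommGroup E₁] [Module ℝ E₁] [TopologicalSpace E₁]
    [AddCommGroup E₂] [Module ℝ E₂] [TopologicalSpace E₂] (e : E₁ ≃L[ℝ] E₂) (p : Seminorm ℝ E₁)
    (h : Webbed (p.comp (e.symm : E₂ →ₗ[ℝ] E₁))) : Webbed p := by
  obtain ⟨S, hSm, hSB, hSA⟩ := h
  refine ⟨fun j n => e ⁻¹' S j n, fun j n n' hnn x hx => hSm j hnn hx, ?_, ?_⟩
  · intro B hB j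
    obtain ⟨n, hn⟩ := hSB (e '' B) (hB.image (e : E₁ →L[ℝ] E₂)) j
    exact ⟨n, fun x hx => hn ⟨x, hx, rfl⟩⟩
  · intro A hA
    obtain ⟨B, hB, hBA⟩ := hSA (e '' A) (fun j => by
      obtain ⟨n, hn⟩ := hA j
      refine ⟨n, ?_⟩
      rintro _ ⟨x, hx, rfl⟩
      exact hn hx)
    refine ⟨e.symm '' B, hB.image (e.symm : E₂ →L[ℝ] E₁), fun a ha => ?_⟩
    obtain ⟨b, hb, hab⟩ := hBA (e a) ⟨a, ha, rfl⟩
    refine ⟨e.symm b, ⟨b, hb, rfl⟩, ?_⟩
    have h1 : p (e.symm (e a - b)) = 0 := hab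
    rwa [map_sub, e.symm_apply_apply] at h1

end metrizable

end Pool.Agent.Work.MP_6cbae3_an_helper29
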